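import Pool.Agent.R520.Gap

set_option autoImplicit false

/-!
# There is no balanced digraph with Laplacian spread strictly between 0 and 1

Proof: let `S` be the symmetric part of the Laplacian, let `[α, β]` be the interval of its values on the unit
vectors orthogonal to the all-ones vector, and `c = (α + β) / 2`. If `β - α ≤ 1` the projections of the basis
vectors show that all outdegrees are equal and that all off-diagonal entries of `-S` (which are `0`, `1/2` or
`1`) differ by less than `1/2` from `c / n`. So, up to the complement, there are no digons, and the norm of a row
of `S - c P` bounds the product of the degree and the codegree. There remain the empty digraph and the regular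
tournaments, with spread `0`, and the orientations of a complete graph without a perfect matching, with spread `1`.
-/

namespace Pool.Agent.Results.MP_6838a0_co.SpreadGap

open Pool.Agent.R520

/-- No balanced digraph of order `n ≥ 2` has a Laplacian spread strictly between `0` and `1`. -/
theorem result (V : Type) [Fintype V] [DecidableEq V] (Γ : V → V → Prop) (hn : 2 ≤ Fintype.card V)
    (hloop : ∀ i, ¬ Γ i i) (hbal : ∀ i, outdeg Γ i = indeg Γ i) :
    ¬ (0 < spread Γ ∧ spread Γ < 1) := by
  rintro ⟨h0, h1⟩
  rcases eq_or_lt_of_le hn with h2 | h2
  · rcases cocktail_of_spread Γ hloop hbal hn h1.le h0 with h | h
    · have := spread_two Γ h2.symm h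
      linarith
    · have := spread_two (complement Γ) h2.symm h
      rw [spread_compl Γ hloop hn] at this
      linarith
  · rcases cocktail_of_spread Γ hloop hbal hn h1.le h0 with h | h
    · have := spread_of_cocktail Γ hloop h2 h
      linarith
    · have := spread_of_cocktail (complement Γ) (compl_loopless Γ) h2 h
      rw [spread_compl Γ hloop hn] at this
      linarith

end Pool.Agent.Results.MP_6838a0_co.SpreadGap
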